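import Pool.Agent.Lib_helper58.KT.Aut

/-!
# BLOCK CONJ2: the conjugates of a root `q ^ j * μ` modulo the maximal ideal
-/

set_option autoImplicit false

namespace Pool.Agent.Lib_helper35.PGB

open Polynomial IntermediateField
open Pool.Agent.TT (Qbar)

section
variable {p : ℕ} [hp : Fact p.Prime]

theorem norm_p : ‖(p : ℂ_[p])‖ < 1 := by
  have h1 : ((p : ℚ_[p]) : ℂ_[p]) = (p : ℂ_[p]) := by
    change algebraMap ℚ_[p] ℂ_[p] (p : ℚ_[p]) = (p : ℂ_[p])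
    rw [map_natCast]
  rw [← h1, PadicComplex.norm_extends']
  exact Padic.norm_p_lt_one

theorem norm_add_pow {x y : ℂ_[p]} (hx : ‖x‖ ≤ 1) (hy : ‖y‖ ≤ 1) (n : ℕ) :
    ‖(x + y) ^ p ^ n - x ^ p ^ n - y ^ p ^ n‖ ≤ ‖(p : ℂ_[p])‖ := by
  rw [add_pow_prime_pow_eq hp.out x y n]
  have h1 : x ^ p ^ n + y ^ p ^ n + (p : ℂ_[p]) * x * y *
      ∑ k ∈ Finset.Ioo 0 (p ^ n), x ^ (k - 1) * y ^ (p ^ n - k - 1) *
        (((p ^ n).choose k / p : ℕ) : ℂ_[p]) - x ^ p ^ n - y ^ p ^ n =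
      (p : ℂ_[p]) * (x * (y * ∑ k ∈ Finset.Ioo 0 (p ^ n), x ^ (k - 1) * y ^ (p ^ n - k - 1) *
        (((p ^ n).choose k / p : ℕ) : ℂ_[p]))) := by ring
  rw [h1, norm_mul]
  apply mul_le_of_le_one_right (norm_nonneg _)
  rw [norm_mul, norm_mul]
  have h5 : ‖∑ k ∈ Finset.Ioo 0 (p ^ n), x ^ (k - 1) * y ^ (p ^ n - k - 1) *
      (((p ^ n).choose k / p : ℕ) : ℂ_[p])‖ ≤ 1 := by
    apply IsUltrametricDist.norm_sum_le_of_forall_le_of_nonneg zero_le_one
    intro k _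
    rw [norm_mul, norm_mul, norm_pow, norm_pow]
    have h2 : ‖x‖ ^ (k - 1) ≤ 1 := pow_le_one₀ (norm_nonneg _) hx
    have h3 : ‖y‖ ^ (p ^ n - k - 1) ≤ 1 := pow_le_one₀ (norm_nonneg _) hy
    have h4 : ‖(((p ^ n).choose k / p : ℕ) : ℂ_[p])‖ ≤ 1 :=
      IsUltrametricDist.norm_natCast_le_one _ _
    calc ‖x‖ ^ (k - 1) * ‖y‖ ^ (p ^ n - k - 1) * ‖(((p ^ n).choose k / p : ℕ) : ℂ_[p])‖ ≤
          1 * 1 * 1 := by gcongr
      _ = 1 := by norm_num
  exact mul_le_one₀ hx (mul_nonneg (norm_nonneg _) (norm_nonneg _))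
    (mul_le_one₀ hy (norm_nonneg _) h5)

theorem norm_of_pow_eq_one {x : ℂ_[p]} {M : ℕ} (hM : 0 < M) (hx : x ^ M = 1) : ‖x‖ = 1 := by
  have h1 : ‖x‖ ^ M = 1 := by rw [← norm_pow, hx, norm_one]
  exact (pow_eq_one_iff_of_nonneg (norm_nonneg _) hM.ne').1 h1

/-- A root of unity of `p`-power order is near `1`. -/
theorem near_one {x : ℂ_[p]} {n : ℕ} (hx : x ^ p ^ n = 1) : ‖x - 1‖ < 1 := by
  have hpos : 0 < p ^ n := pow_pos hp.out.pos n
  have hnx := norm_of_pow_eq_one hpos hx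
  have h1 := norm_add_pow (x := x) (y := -1) hnx.le (by rw [norm_neg, norm_one]) n
  have h2 : ‖x ^ p ^ n + (-1) ^ p ^ n‖ < 1 := by
    rw [hx]
    rcases Nat.even_or_odd (p ^ n) with he | ho
    · have h2p : p = 2 := by
        have h3 : 2 ∣ p ^ n := he.two_dvd
        exact ((Nat.prime_dvd_prime_iff_eq Nat.prime_two hp.out).1
          (Nat.prime_two.dvd_of_dvd_pow h3)).symm
      rw [he.neg_one_pow]
      have h4 := norm_p (p := p)
      have h5 : ((p : ℕ) : ℂ_[p]) = ((2 : ℕ) : ℂ_[p]) := congrArg Nat.cast h2p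
      rw [h5] at h4
      norm_num at h4 ⊢
      exact h4
    · rw [ho.neg_one_pow]
      simp
  have h3 : ‖(x - 1) ^ p ^ n‖ < 1 := by
    have h4 : (x - 1) ^ p ^ n = ((x + -1) ^ p ^ n - x ^ p ^ n - (-1) ^ p ^ n) +
        (x ^ p ^ n + (-1) ^ p ^ n) := by
      rw [← sub_eq_add_neg x 1]
      ring
    rw [h4]
    exact (IsUltrametricDist.norm_add_le_max _ _).trans_lt (max_lt (h1.trans_lt norm_p) h2)
  rw [norm_pow] at h3
  by_contra hcon
  push Not at hcon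
  exact absurd h3 (not_lt.2 (one_le_pow₀ hcon))

theorem norm_mul_sub_mul {a b c d : ℂ_[p]} (ha : ‖a‖ ≤ 1) (hd : ‖d‖ ≤ 1) (h1 : ‖b - d‖ < 1)
    (h2 : ‖a - c‖ < 1) : ‖a * b - c * d‖ < 1 := by
  have h : a * b - c * d = a * (b - d) + (a - c) * d := by ring
  rw [h]
  apply (IsUltrametricDist.norm_add_le_max _ _).trans_lt
  apply max_lt
  · rw [norm_mul]
    exact mul_lt_one_of_nonneg_of_lt_one_right ha (norm_nonneg _) h1
  · rw [norm_mul]
    exact mul_lt_one_of_nonneg_of_lt_one_left (norm_nonneg _) h2 hd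

theorem norm_pow_sub_pow {a b : ℂ_[p]} (ha : ‖a‖ ≤ 1) (hb : ‖b‖ ≤ 1) (h : ‖a - b‖ < 1) (k : ℕ) :
    ‖a ^ k - b ^ k‖ < 1 := by
  induction k with
  | zero => simp
  | succ k ih =>
    rw [pow_succ, pow_succ]
    refine norm_mul_sub_mul ?_ hb h ih
    rw [norm_pow]
    exact pow_le_one₀ (norm_nonneg _) ha

end

theorem pow_of_modEq {z : Qbar} {a i j : ℕ} (hz : z ^ a = 1) (h : i ≡ j [MOD a]) :
    z ^ i = z ^ j := by
  rw [pow_eq_pow_mod i hz, show i % a = j % a from h, ← pow_eq_pow_mod j hz]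

/-- The field of the elements fixed by an automorphism. -/
theorem exists_fixed (τ : Qbar ≃ₐ[ℚ] Qbar) :
    ∃ L : IntermediateField ℚ Qbar, ∀ z : Qbar, z ∈ L ↔ τ z = z := by
  refine ⟨{ carrier := {z | τ z = z}
            mul_mem' := ?_
            add_mem' := ?_
            algebraMap_mem' := ?_
            inv_mem' := ?_ }, fun z => Iff.rfl⟩
  · intro a b ha hb
    show τ (a * b) = a * b
    rw [map_mul, show τ a = a from ha, show τ b = b from hb]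
  · intro a b ha hb
    show τ (a + b) = a + b
    rw [map_add, show τ a = a from ha, show τ b = b from hb]
  · intro r
    exact τ.commutes r
  · intro a ha
    show τ a⁻¹ = a⁻¹
    rw [map_inv₀, show τ a = a from ha]

end Pool.Agent.Lib_helper35.PGB

namespace Pool.Agent.PG

open Polynomial IntermediateField
open Pool.Agent.TT (Qbar)
open Pool.Agent.Lib_helper35.PGB

/-- BLOCK CONJ2. -/
theorem block_CONJ2 {p : ℕ} [Fact p.Prime] (θ : Qbar →+* ℂ_[p]) {m n : ℕ} (hpm : ¬ p ∣ m)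
    {zm w : Qbar} (hzm : zm ^ m = 1) (hw : w ^ p ^ n = 1) (P : Qbar[X])
    (hcoef : ∀ L : IntermediateField ℚ Qbar, zm ∈ L → w ∈ L → ∀ i, P.coeff i ∈ L) {q j N : ℕ}
    (hq : ‖(q : ℂ_[p]) - 1‖ < 1) {μ : Qbar} (hN : 0 < N) (hμ : μ ^ N = 1)
    (hroot : P.eval ((q : Qbar) ^ j * μ) = 0) :
    ∃ M : ℕ, 0 < M ∧ ‖θ ((q : Qbar) ^ j * μ) ^ M - 1‖ < 1 ∧
      ∀ k : ℕ, k.Coprime M → k % m = 1 % m →
        ∃ y, P.eval y = 0 ∧ ‖θ y - θ ((q : Qbar) ^ j * μ) ^ k‖ < 1 := by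
  have hp : p.Prime := Fact.out
  have hm : 0 < m := by
    rcases Nat.eq_zero_or_pos m with h | h
    · exact absurd (h ▸ dvd_zero p) hpm
    · exact h
  have hμ' : IsOfFinOrder μ := isOfFinOrder_iff_pow_eq_one.mpr ⟨N, hN, hμ⟩
  have hord : orderOf μ ≠ 0 := hμ'.orderOf_pos.ne'
  obtain ⟨b, M, hpM, hbM⟩ := Nat.exists_eq_pow_mul_and_not_dvd hord p hp.ne_one
  have hM : 0 < M := by
    rcases Nat.eq_zero_or_pos M with h | h
    · subst h; simp at hpM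
    · exact h
  have hcop : Nat.Coprime p M := (Nat.Prime.coprime_iff_not_dvd hp).2 hpM
  have hcopm : Nat.Coprime p m := (Nat.Prime.coprime_iff_not_dvd hp).2 hpm
  have htot : 0 < M.totient := Nat.totient_pos.2 hM
  -- the part of order prime to `p`
  set A : ℕ := p ^ (M.totient * b) with hA
  have hA1 : A ≡ 1 [MOD M] := by
    rw [hA, pow_mul]
    have h2 := (Nat.ModEq.pow_totient hcop).pow b
    rwa [one_pow] at h2
  have hAb : p ^ b ∣ A := pow_dvd_pow p (Nat.le_mul_of_pos_left b htot)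
  set ξ : Qbar := μ ^ A with hξdef
  have hξM : ξ ^ M = 1 := by
    obtain ⟨c, hc⟩ := hAb
    rw [hξdef, ← pow_mul, hc, show p ^ b * c * M = orderOf μ * c by rw [hbM]; ring, pow_mul,
      pow_orderOf_eq_one, one_pow]
  -- `μ` is near `ξ`
  have hnear : ∀ τ : Qbar →+* ℂ_[p], ‖τ μ - τ ξ‖ < 1 := by
    intro τ
    have hμ0 : μ ≠ 0 := by
      intro h
      rw [h, zero_pow hN.ne'] at hμ
      exact zero_ne_one hμ
    have hξ0 : ξ ≠ 0 := pow_ne_zero _ hμ0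
    have hw : (μ / ξ) ^ p ^ b = 1 := by
      rw [div_pow, div_eq_one_iff_eq (pow_ne_zero _ hξ0), hξdef, ← pow_mul]
      rw [hμ'.pow_eq_pow_iff_modEq, hbM]
      have h1 : p ^ b * 1 ≡ p ^ b * A [MOD p ^ b * M] := Nat.ModEq.mul_left' _ hA1.symm
      rw [mul_one, mul_comm (p ^ b) A] at h1
      exact h1
    have h1 : ‖τ (μ / ξ) - 1‖ < 1 := near_one (n := b) (by rw [← map_pow, hw, map_one])
    have h2 : τ μ - τ ξ = (τ (μ / ξ) - 1) * τ ξ := by
      rw [sub_mul, one_mul, ← map_mul, div_mul_cancel₀ _ hξ0]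
    rw [h2, norm_mul, norm_of_pow_eq_one hM (x := τ ξ) (by rw [← map_pow, hξM, map_one]), mul_one]
    exact h1
  have hq1 : ‖(q : ℂ_[p])‖ ≤ 1 := IsUltrametricDist.norm_natCast_le_one _ _
  have hqj : ‖((q : ℂ_[p])) ^ j - 1‖ < 1 := by
    have := norm_pow_sub_pow hq1 (norm_one (α := ℂ_[p])).le hq j
    rwa [one_pow] at this
  have hnear2 : ∀ τ : Qbar →+* ℂ_[p], ‖τ ((q : Qbar) ^ j * μ) - τ ξ‖ < 1 := by
    intro τ
    have h1 : τ ((q : Qbar) ^ j * μ) = (q : ℂ_[p]) ^ j * τ μ := by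
      rw [map_mul, map_pow, map_natCast]
    have h2 : τ ((q : Qbar) ^ j * μ) - τ ξ = (q : ℂ_[p]) ^ j * τ μ - 1 * τ ξ := by
      rw [h1, one_mul]
    rw [h2]
    apply norm_mul_sub_mul _ _ (hnear τ) hqj
    · rw [norm_pow]
      exact pow_le_one₀ (norm_nonneg _) hq1
    · exact (norm_of_pow_eq_one hM (by rw [← map_pow, hξM, map_one])).le
  have hθξ : ‖θ ξ‖ = 1 := norm_of_pow_eq_one hM (by rw [← map_pow, hξM, map_one])
  have hθx : ‖θ ((q : Qbar) ^ j * μ)‖ ≤ 1 := by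
    rw [map_mul, map_pow, map_natCast, norm_mul, norm_pow,
      norm_of_pow_eq_one hN (x := θ μ) (by rw [← map_pow, hμ, map_one]), mul_one]
    exact pow_le_one₀ (norm_nonneg _) hq1
  refine ⟨M, hM, ?_, ?_⟩
  · have h := norm_pow_sub_pow hθx hθξ.le (hnear2 θ) M
    rwa [← map_pow θ ξ, hξM, map_one] at h
  · intro k hkM hkm
    have hkm1 : k ≡ 1 [MOD m] := hkm
    set Λ : ℕ := M.lcm m with hΛ
    have hΛpos : 0 < Λ := Nat.lcm_pos hM hm
    have hkm2 : Nat.Coprime k m := by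
      have h1 := hkm1.gcd_eq
      rw [Nat.gcd_one_left] at h1
      exact h1
    have hkΛ : Nat.Coprime k Λ :=
      Nat.Coprime.coprime_dvd_right (Nat.lcm_dvd_mul M m) (Nat.Coprime.mul_right hkM hkm2)
    have hpΛ : Nat.Coprime p Λ :=
      Nat.Coprime.coprime_dvd_right (Nat.lcm_dvd_mul M m) (Nat.Coprime.mul_right hcop hcopm)
    have hΛp : Nat.Coprime Λ (p ^ n) := (Nat.Coprime.pow_left n hpΛ).symm
    obtain ⟨κ, hκ1, hκ2⟩ := Nat.chineseRemainder hΛp k 1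
    have hκΛ : Nat.Coprime κ Λ := by
      have h1 := hκ1.gcd_eq
      rw [Nat.Coprime] at hkΛ ⊢
      rw [h1]
      exact hkΛ
    have hκp : Nat.Coprime κ (p ^ n) := by
      have h1 := hκ2.gcd_eq
      rw [Nat.gcd_one_left] at h1
      exact h1
    obtain ⟨τ, hτ⟩ := KT.kt_aut (Nat.mul_pos hΛpos (pow_pos hp.pos n))
      (Nat.Coprime.mul_right hκΛ hκp)
    -- `τ` fixes `zm` and `w`
    have hfix : ∀ (z : Qbar) (a : ℕ), z ^ a = 1 → a ∣ Λ * p ^ n → κ ≡ 1 [MOD a] → τ z = z := by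
      intro z a hz ha hκ
      obtain ⟨c, hc⟩ := ha
      rw [hτ z (by rw [hc, pow_mul, hz, one_pow])]
      rw [pow_of_modEq hz hκ, pow_one]
    have hτzm : τ zm = zm := hfix zm m hzm ((Nat.dvd_lcm_right M m).mul_right _)
      ((hκ1.of_dvd (Nat.dvd_lcm_right M m)).trans hkm1)
    have hτw : τ w = w := hfix w (p ^ n) hw (Nat.dvd_mul_left _ _) hκ2
    obtain ⟨L, hL⟩ := exists_fixed τ
    have hcf : ∀ i, τ (P.coeff i) = P.coeff i := fun i =>
      (hL _).1 (hcoef L ((hL _).2 hτzm) ((hL _).2 hτw) i)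
    refine ⟨τ ((q : Qbar) ^ j * μ), ?_, ?_⟩
    · rw [Polynomial.eval_eq_sum_range] at hroot ⊢
      have h1 := congrArg τ hroot
      rw [map_zero, map_sum] at h1
      rw [← h1]
      apply Finset.sum_congr rfl
      intro i _
      rw [map_mul τ (P.coeff i), map_pow τ ((q : Qbar) ^ j * μ) i, hcf]
    · have h1 := hnear2 (θ.comp (τ : Qbar →+* Qbar))
      simp only [RingHom.comp_apply, RingHom.coe_coe] at h1
      have h2 : τ ξ = ξ ^ k := by
        obtain ⟨c, hc⟩ := (Nat.dvd_lcm_left M m).mul_right (p ^ n)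
        rw [hτ ξ (by rw [hΛ, hc, pow_mul, hξM, one_pow])]
        exact pow_of_modEq hξM (hκ1.of_dvd (Nat.dvd_lcm_left M m))
      rw [h2, map_pow] at h1
      have h4 := norm_pow_sub_pow hθx hθξ.le (hnear2 θ) k
      have h5 : θ (τ ((q : Qbar) ^ j * μ)) - θ ((q : Qbar) ^ j * μ) ^ k =
          (θ (τ ((q : Qbar) ^ j * μ)) - θ ξ ^ k) +
            -(θ ((q : Qbar) ^ j * μ) ^ k - θ ξ ^ k) := by ring
      rw [h5]
      apply (IsUltrametricDist.norm_add_le_max _ _).trans_lt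
      rw [norm_neg]
      exact max_lt h1 h4

end Pool.Agent.PG
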