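import Pool.Agent.Lib_helper35.PG.Mat
import Mathlib.RingTheory.Flat.TorsionFree
import Mathlib.RingTheory.LocalRing.Module
import Mathlib.RingTheory.Valuation.ValuationSubring

/-!
# Lattices over the ring of integers of an ultrametric field
-/

set_option autoImplicit false

namespace Pool.Agent.PG

open Matrix Polynomial
open Pool.Agent.OF

section lattice

variable {C : Type} [NormedField C] [IsUltrametricDist C] {d : ℕ}

/-- The valuation ring. -/
def ofVal (C : Type) [NormedField C] [IsUltrametricDist C] : ValuationSubring C where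
  toSubring := ofBall C
  mem_or_inv_mem' := by
    intro x
    change ‖x‖ ≤ 1 ∨ ‖x⁻¹‖ ≤ 1
    rcases le_total ‖x‖ 1 with h | h
    · exact Or.inl h
    · right
      rw [norm_inv]
      exact inv_le_one_of_one_le₀ h

theorem ofVal_norm (a : ofVal C) : ‖(a : C)‖ ≤ 1 := a.2

/-- A finitely generated lattice has a basis. -/
theorem pgl_basis (Λ : Submodule (ofVal C) (Fin d → C)) (hfg : Λ.FG)
    (hspan : Submodule.span C (Λ : Set (Fin d → C)) = ⊤) :
    ∃ B : Module.Basis (Fin d) C (Fin d → C), (∀ i, B i ∈ Λ) ∧ ∀ x ∈ Λ, ∀ i, ‖B.repr x i‖ ≤ 1 := by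
  classical
  have hfin : Module.Finite (ofVal C) Λ := Module.Finite.iff_fg.2 hfg
  have hflat : Module.Flat (ofVal C) Λ := by
    rw [Module.Flat.flat_iff_torsion_eq_bot_of_isBezout, eq_bot_iff]
    rintro m ⟨⟨r, hr⟩, h⟩
    have hr0 : r ≠ 0 := nonZeroDivisors.ne_zero hr
    have h1 : (r : C) • (m : Fin d → C) = 0 := by
      have h2 : (((r • m : Λ)) : Fin d → C) = 0 := by
        have h3 : r • m = 0 := h
        rw [h3]
        rfl
      exact h2
    rw [Submodule.mem_bot]
    have h4 : (r : C) ≠ 0 := fun h0 => hr0 (Subtype.ext h0)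
    exact Subtype.ext ((smul_eq_zero_iff_right h4).1 h1)
  have hfree : Module.Free (ofVal C) Λ := Module.free_of_flat_of_isLocalRing
  set b := Module.Free.chooseBasis (ofVal C) Λ with hb
  have hli : LinearIndependent (ofVal C) (fun i => (b i : Fin d → C)) :=
    b.linearIndependent.map' Λ.subtype (Submodule.ker_subtype Λ)
  have hliC : LinearIndependent C (fun i => (b i : Fin d → C)) :=
    (LinearIndependent.iff_fractionRing (ofVal C) C).1 hli
  have hsum : ∀ x (hx : x ∈ Λ), x = ∑ i, ((b.repr ⟨x, hx⟩ i : ofVal C) : C) • (b i : Fin d → C) := by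
    intro x hx
    have h1 := congrArg (fun y : Λ => (y : Fin d → C)) (b.sum_repr ⟨x, hx⟩)
    simp only [Submodule.coe_sum, Submodule.coe_smul] at h1
    exact h1.symm
  have hsp : ⊤ ≤ Submodule.span C (Set.range fun i => (b i : Fin d → C)) := by
    rw [← hspan, Submodule.span_le]
    intro x hx
    rw [hsum x hx]
    exact Submodule.sum_mem _ fun i _ => Submodule.smul_mem _ _ (Submodule.subset_span ⟨i, rfl⟩)
  let B₀ := Module.Basis.mk hliC hsp
  have hB₀ : ∀ i, B₀ i = (b i : Fin d → C) := fun i => Module.Basis.mk_apply hliC hsp i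
  have hcard : Fintype.card (Module.Free.ChooseBasisIndex (ofVal C) Λ) = d := by
    have h1 := Module.finrank_eq_card_basis B₀
    rw [Module.finrank_fin_fun] at h1
    exact h1.symm
  let e : Module.Free.ChooseBasisIndex (ofVal C) Λ ≃ Fin d := Fintype.equivFinOfCardEq hcard
  refine ⟨B₀.reindex e, ?_, ?_⟩
  · intro i
    rw [Module.Basis.reindex_apply, hB₀]
    exact (b _).2
  · intro x hx i
    rw [Module.Basis.repr_reindex_apply]
    have h1 : x = ∑ i, ((b.repr ⟨x, hx⟩ i : ofVal C) : C) • B₀ i := by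
      conv_lhs => rw [hsum x hx]
      exact Finset.sum_congr rfl fun i _ => by rw [hB₀]
    have h2 : B₀.repr x (e.symm i) = ((b.repr ⟨x, hx⟩ (e.symm i) : ofVal C) : C) := by
      conv_lhs => rw [h1]
      rw [Module.Basis.repr_sum_self]
    rw [h2]
    exact ofVal_norm _

/-- **Integral form**: a family of matrices, closed under products, that lies in finitely many
cosets of integral matrices is integral in some basis. -/
theorem pgl_conj {G : Type} [Group G] (ρ : G →* Matrix (Fin d) (Fin d) C) {ι : Type} [Finite ι]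
    (r : ι → G) (hr : ∀ σ : G, ∃ (q : ι) (u : G), σ = r q * u ∧ ∀ i j, ‖ρ u i j‖ ≤ 1) :
    ∃ P : (Matrix (Fin d) (Fin d) C)ˣ, ∀ σ i j, ‖(P.val⁻¹ * ρ σ * P.val) i j‖ ≤ 1 := by
  classical
  cases nonempty_fintype ι
  let v : ι × Fin d → (Fin d → C) := fun q => ρ (r q.1) *ᵥ Pi.single q.2 1
  let Λ : Submodule (ofVal C) (Fin d → C) := Submodule.span (ofVal C) (Set.range v)
  have hfg : Λ.FG := Submodule.fg_span (Set.finite_range v)
  have hvec : ∀ σ (w : Fin d → C), (∀ i, ‖w i‖ ≤ 1) → ρ σ *ᵥ w ∈ Λ := by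
    intro σ w hw
    obtain ⟨q, u, hσ, hu⟩ := hr σ
    have h1 : ρ σ *ᵥ w = ρ (r q) *ᵥ (ρ u *ᵥ w) := by
      rw [hσ, map_mul, Matrix.mulVec_mulVec]
    have h2 : ∀ i, ‖(ρ u *ᵥ w) i‖ ≤ 1 := by
      intro i
      rw [Matrix.mulVec, dotProduct]
      apply IsUltrametricDist.norm_sum_le_of_forall_le_of_nonneg zero_le_one
      intro j _
      rw [norm_mul]
      exact mul_le_one₀ (hu i j) (norm_nonneg _) (hw j)
    have h3 : ρ (r q) *ᵥ (ρ u *ᵥ w) = ∑ j, (⟨(ρ u *ᵥ w) j, h2 j⟩ : ofVal C) • v (q, j) := by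
      conv_lhs => rw [← Finset.univ_sum_single (ρ u *ᵥ w)]
      rw [Matrix.mulVec_sum]
      refine Finset.sum_congr rfl fun j _ => ?_
      change _ = (ρ u *ᵥ w) j • (ρ (r q) *ᵥ Pi.single j 1)
      rw [← Matrix.mulVec_smul]
      congr 1
      ext k
      rw [Pi.smul_apply, smul_eq_mul, Pi.single_apply, Pi.single_apply]
      split_ifs with hk
      · rw [mul_one]
      · rw [mul_zero]
    rw [h1, h3]
    exact Submodule.sum_mem _ fun j _ => Submodule.smul_mem _ _ (Submodule.subset_span ⟨_, rfl⟩)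
  have hstab : ∀ σ, ∀ x ∈ Λ, ρ σ *ᵥ x ∈ Λ := by
    intro σ x hx
    induction hx using Submodule.span_induction with
    | mem x hx =>
      obtain ⟨q, rfl⟩ := hx
      change ρ σ *ᵥ (ρ (r q.1) *ᵥ Pi.single q.2 1) ∈ Λ
      rw [Matrix.mulVec_mulVec, ← map_mul]
      apply hvec
      intro i
      rw [Pi.single_apply]
      split_ifs
      · rw [norm_one]
      · rw [norm_zero]
        exact zero_le_one
    | zero =>
      rw [Matrix.mulVec_zero]
      exact Submodule.zero_mem _
    | add x y _ _ hx hy =>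
      rw [Matrix.mulVec_add]
      exact Submodule.add_mem _ hx hy
    | smul a x _ hx =>
      have h1 : ρ σ *ᵥ (a • x) = a • (ρ σ *ᵥ x) := by
        change ρ σ *ᵥ ((a : C) • x) = (a : C) • (ρ σ *ᵥ x)
        rw [Matrix.mulVec_smul]
      rw [h1]
      exact Submodule.smul_mem _ _ hx
  have hspan : Submodule.span C (Λ : Set (Fin d → C)) = ⊤ := by
    rw [eq_top_iff]
    intro x _
    have h1 : x = ∑ j, x j • (Pi.single j 1 : Fin d → C) := by
      ext k
      rw [Finset.sum_apply]
      simp [Pi.single_apply]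
    rw [h1]
    refine Submodule.sum_mem _ fun j _ => Submodule.smul_mem _ _ (Submodule.subset_span ?_)
    have h2 := hvec 1 (Pi.single j 1) (by
      intro i
      rw [Pi.single_apply]
      split_ifs
      · rw [norm_one]
      · rw [norm_zero]
        exact zero_le_one)
    rw [map_one, Matrix.one_mulVec] at h2
    exact h2
  obtain ⟨B, hBΛ, hB⟩ := pgl_basis Λ hfg hspan
  let P : Matrix (Fin d) (Fin d) C := Matrix.of fun i j => B j i
  have hP : P = (Pi.basisFun C (Fin d)).toMatrix B := by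
    ext i j
    rw [Module.Basis.toMatrix_apply, Pi.basisFun_repr]
    rfl
  let Q : Matrix (Fin d) (Fin d) C := B.toMatrix (Pi.basisFun C (Fin d))
  have hPQ : P * Q = 1 := by
    rw [hP]
    exact Module.Basis.toMatrix_mul_toMatrix_flip _ _
  have hQP : Q * P = 1 := by
    rw [hP]
    exact Module.Basis.toMatrix_mul_toMatrix_flip _ _
  refine ⟨⟨P, Q, hPQ, hQP⟩, ?_⟩
  intro σ i j
  have hinv : P⁻¹ = Q := Matrix.inv_eq_left_inv hQP
  change ‖(P⁻¹ * ρ σ * P) i j‖ ≤ 1
  rw [hinv]
  have h1 : (Q * ρ σ * P) i j = B.repr (ρ σ *ᵥ B j) i := by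
    have h2 : ∀ w : Fin d → C, Q *ᵥ w = B.repr w := by
      intro w
      have h3 := Module.Basis.toMatrix_mulVec_repr (b := Pi.basisFun C (Fin d)) (b' := B) w
      have h4 : ((Pi.basisFun C (Fin d)).repr w : Fin d → C) = w := by
        ext k
        rw [Pi.basisFun_repr]
      rw [h4] at h3
      exact h3
    rw [← h2, Matrix.mulVec_mulVec]
    rfl
  rw [h1]
  exact hB _ (hstab σ _ (hBΛ j)) i

end lattice

end Pool.Agent.PG
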