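import Pool.Agent.Lib_helper35.OF.Mat

/-!
# Powers of integral matrices modulo the maximal ideal
-/

set_option autoImplicit false

namespace Pool.Agent.PG

open Matrix Polynomial
open Pool.Agent.OF

section ball

variable {C : Type} [NormedField C] [IsUltrametricDist C] {d : ℕ}

/-- The ring of integers. -/
def ofBall (C : Type) [NormedField C] [IsUltrametricDist C] : Subring C where
  carrier := {a | ‖a‖ ≤ 1}
  zero_mem' := by
    change ‖(0 : C)‖ ≤ 1
    rw [norm_zero]
    exact zero_le_one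
  one_mem' := by
    change ‖(1 : C)‖ ≤ 1
    rw [norm_one]
  add_mem' := by
    intro a b ha hb
    exact (IsUltrametricDist.norm_add_le_max _ _).trans (max_le ha hb)
  mul_mem' := by
    intro a b ha hb
    change ‖a * b‖ ≤ 1
    rw [norm_mul]
    exact mul_le_one₀ ha (norm_nonneg _) hb
  neg_mem' := by
    intro a ha
    change ‖-a‖ ≤ 1
    rw [norm_neg]
    exact ha

/-- **The matrix lemma modulo the maximal ideal.** -/
theorem pgof_mat {p : ℕ} (hp : p.Prime) {t M a : ℕ} (hp1 : ‖(p : C)‖ < 1) (hdt : d ≤ p ^ t)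
    (T : Matrix (Fin d) (Fin d) C) (hT : EntLe T 1)
    (hM : ∀ i j, ‖(T ^ (M * p ^ a) - 1) i j‖ < 1) :
    ∀ i j, ‖(T ^ (M * p ^ t) - 1) i j‖ < 1 := by
  set A : Subring C := ofBall C with hAdef
  have hA1 : ∀ a ∈ A, ‖a‖ ≤ 1 := fun a ha => ha
  let f : Matrix (Fin d) (Fin d) A →+* Matrix (Fin d) (Fin d) C := A.subtype.mapMatrix
  let TA : Matrix (Fin d) (Fin d) A := Matrix.of fun i j => ⟨T i j, hT i j⟩
  have hfT : f TA = T := by
    ext i j
    rfl
  set ν : Matrix (Fin d) (Fin d) A := TA ^ M - 1 with hν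
  have hTν : TA ^ M = 1 + ν := by rw [hν]; abel
  have := ofIdeal_prime A hA1
  let g : Matrix (Fin d) (Fin d) A →+* Matrix (Fin d) (Fin d) (A ⧸ ofIdeal A hA1) :=
    (Ideal.Quotient.mk (ofIdeal A hA1)).mapMatrix
  have hg0 : ∀ N : Matrix (Fin d) (Fin d) A, g N = 0 ↔ ∀ i j, ‖(f N) i j‖ < 1 := by
    intro N
    constructor
    · intro h i j
      have h1 : Ideal.Quotient.mk (ofIdeal A hA1) (N i j) = 0 := congrFun (congrFun h i) j
      rw [Ideal.Quotient.eq_zero_iff_mem] at h1
      exact h1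
    · intro h
      ext i j
      change Ideal.Quotient.mk (ofIdeal A hA1) (N i j) = 0
      rw [Ideal.Quotient.eq_zero_iff_mem]
      exact h i j
  have hgp : ((p : ℕ) : Matrix (Fin d) (Fin d) (A ⧸ ofIdeal A hA1)) = 0 := by
    have h1 : g ((p : ℕ) : Matrix (Fin d) (Fin d) A) = 0 := by
      rw [hg0]
      intro i j
      rw [map_natCast, Matrix.natCast_apply]
      split_ifs
      · exact hp1
      · rw [Nat.cast_zero, norm_zero]
        exact one_pos
    rwa [map_natCast] at h1
  have hpow : ∀ n : ℕ, g (TA ^ (M * p ^ n) - 1) = g ν ^ p ^ n := by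
    intro n
    obtain ⟨R, hR⟩ := (Commute.one_left ν).exists_add_pow_prime_pow_eq hp n
    rw [← hTν, ← pow_mul, one_pow] at hR
    rw [hR, map_sub, map_add, map_add, map_mul, map_mul, map_mul, map_natCast, hgp, zero_mul,
      zero_mul, zero_mul, add_zero, map_one, add_sub_cancel_left, map_pow]
  have hnil : IsNilpotent (g ν) := by
    refine ⟨p ^ a, ?_⟩
    rw [← hpow, hg0]
    intro i j
    rw [map_sub, map_pow, hfT, map_one]
    exact hM i j
  have hνt : g ν ^ p ^ t = 0 := by
    have h1 : g ν ^ p ^ t = g ν ^ d * g ν ^ (p ^ t - d) := by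
      rw [← pow_add]
      congr 1
      omega
    rw [h1, of_nilp hnil, zero_mul]
  rw [← hpow, hg0] at hνt
  intro i j
  have h1 := hνt i j
  rwa [map_sub, map_pow, hfT, map_one] at h1

end ball

end Pool.Agent.PG
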