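import Pool.Agent.Lib_helper16.KP.Defs

/-!
# One Frobenius element for all coverings: the hypothesis
-/

set_option autoImplicit false

namespace Pool.Agent.PG

open Pool.Agent.TT Pool.Agent.KT Pool.Agent.KP

/-- Some power `h ^ p ^ a` of the element `h` fixes the field `L`. -/
def PowerFixes {K : Type} (L : Type) [Field K] [Field L] [Algebra K Qbar] [Algebra L Qbar] (p : ℕ)
    (h : Qbar ≃ₐ[K] Qbar) : Prop :=
  ∃ a : ℕ, ∀ x : L, (h ^ p ^ a) (algebraMap L Qbar x) = algebraMap L Qbar x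

/-- The element `g` fixes the roots of unity of order `p ^ (κ + t)`, where `p ^ t ≥ d` and some
element `τ` fixes the roots of unity of order `p ^ κ` but not those of order `p ^ (κ + 1)`
(`κ ≥ 1`, and `κ ≥ 2` if `p = 2`), and every element that fixes all roots of unity of `p`-power
order has a power of exponent `p ^ a` that fixes `L` (the field `L` lies in a `p`-extension of the
field that is generated by all these roots of unity over `K`). -/
def FixesLevel {K : Type} (L : Type) [Field K] [Field L] [Algebra K Qbar] [Algebra L Qbar] (p d : ℕ)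
    (g : Qbar ≃ₐ[K] Qbar) : Prop :=
  ∃ κ t : ℕ, 0 < κ ∧ κ + 2 ≤ p * κ ∧ d ≤ p ^ t ∧
    (∃ τ : Qbar ≃ₐ[K] Qbar, (∀ z : Qbar, z ^ p ^ κ = 1 → τ z = z) ∧
      ∃ z : Qbar, z ^ p ^ (κ + 1) = 1 ∧ τ z ≠ z) ∧
    (∀ h : Qbar ≃ₐ[K] Qbar, FixesRoots p h → PowerFixes L p h) ∧
    ∀ z : Qbar, z ^ p ^ (κ + t) = 1 → g z = z

end Pool.Agent.PG
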