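import Pool.Agent.Lib_helper35.PG.Lat
import Pool.Agent.Lib_helper35.PG.OneDefs
import Pool.Agent.Lib_helper35.OF.Cyc
import Pool.Agent.Lib_helper72.OF.P3
import Pool.Agent.Lib_helper99.PG.Res

/-!
# One Frobenius element for all coverings
-/

set_option autoImplicit false

namespace Pool.Agent.PG

open NumberField Polynomial Topology
open Pool.Agent.TT Pool.Agent.TF Pool.Agent.KT Pool.Agent.KP Pool.Agent.OF Pool.Agent.EFF

/-- A subgroup of finite index near to `1`. -/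
theorem pgof_sub {L : Type} [Field L] [NumberField L] [Algebra L Qbar] {p : ℕ} [hp : Fact p.Prime]
    {d : ℕ} (ρ : (Qbar ≃ₐ[L] Qbar) →* Matrix (Fin d) (Fin d) ℂ_[p]) (hρ : Continuous ρ) :
    ∃ H : Subgroup (Qbar ≃ₐ[L] Qbar), Finite ((Qbar ≃ₐ[L] Qbar) ⧸ H) ∧
      ∀ u ∈ H, ∀ i j, ‖(ρ u - 1) i j‖ < 1 := by
  have hgal := ofr_galois L
  have hcomp : CompactSpace (Qbar ≃ₐ[L] Qbar) := inferInstance
  have hopen : {u : Qbar ≃ₐ[L] Qbar | ∀ i j, ‖(ρ u - 1) i j‖ < 1} ∈ 𝓝 (1 : Qbar ≃ₐ[L] Qbar) := by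
    apply IsOpen.mem_nhds
    · have h1 : {u : Qbar ≃ₐ[L] Qbar | ∀ i j, ‖(ρ u - 1) i j‖ < 1} =
          ⋂ i, ⋂ j, {u : Qbar ≃ₐ[L] Qbar | ‖(ρ u - 1) i j‖ < 1} := by
        ext u
        simp
      rw [h1]
      apply isOpen_iInter_of_finite
      intro i
      apply isOpen_iInter_of_finite
      intro j
      apply isOpen_lt _ continuous_const
      have h3 : Continuous fun M : Matrix (Fin d) (Fin d) ℂ_[p] => M i j :=
        (continuous_apply j).comp (continuous_apply i)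
      exact (h3.comp (hρ.sub continuous_const)).norm
    · intro i j
      rw [map_one, sub_self, Matrix.zero_apply, norm_zero]
      exact zero_lt_one
  obtain ⟨E, hE, hEU⟩ := (krullTopology_mem_nhds_one_iff _ _ _).1 hopen
  have hV : IsOpen (E.fixingSubgroup : Set (Qbar ≃ₐ[L] Qbar)) :=
    IntermediateField.fixingSubgroup_isOpen E
  exact ⟨E.fixingSubgroup, Subgroup.quotient_finite_of_isOpen _ hV, fun u hu => hEU hu⟩

/-- A power of `τ` is near to `1`. -/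
theorem pgof_pow {L : Type} [Field L] [NumberField L] [Algebra L Qbar] {p : ℕ} [hp : Fact p.Prime]
    {d : ℕ} (ρ : (Qbar ≃ₐ[L] Qbar) →* Matrix (Fin d) (Fin d) ℂ_[p]) (hρ : Continuous ρ)
    (τ : Qbar ≃ₐ[L] Qbar) : ∃ n : ℕ, 0 < n ∧ ∀ i j, ‖(ρ τ ^ n - 1) i j‖ < 1 := by
  obtain ⟨H, hfin, hH⟩ := pgof_sub ρ hρ
  have hidx : H.index ≠ 0 := Subgroup.index_ne_zero_of_finite
  obtain ⟨n, hn0, -, hn⟩ := Subgroup.exists_pow_mem_of_index_ne_zero hidx τ
  refine ⟨n, hn0, ?_⟩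
  rw [← map_pow]
  exact hH _ hn

/-- The elements near to `1` are closed under powers. -/
theorem pgof_near_pow {p : ℕ} [hp : Fact p.Prime] {d : ℕ} {r : ℝ} (hr : 0 ≤ r)
    {N : Matrix (Fin d) (Fin d) ℂ_[p]} (hN : EntLe N 1) (h : EntLe (N - 1) r) (j : ℕ) :
    EntLe (N ^ j - 1) r := by
  induction j with
  | zero =>
    intro a b
    rw [pow_zero, sub_self, Matrix.zero_apply, norm_zero]
    exact hr
  | succ j ih =>
    have h1 : N ^ (j + 1) - 1 = N ^ j * (N - 1) + (N ^ j - 1) := by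
      rw [mul_sub, mul_one, ← pow_succ, sub_add_sub_cancel]
    rw [h1]
    apply EntLe.add _ ih
    have h2 : EntLe (N ^ j) 1 := by
      have h3 := EntLe.pow zero_le_one hN j
      rwa [one_pow] at h3
    have h4 := EntLe.mul zero_le_one hr h2 h
    rwa [one_mul] at h4

/-- Finitely many numbers smaller than `1` have a common bound smaller than `1`. -/
theorem pgof_bound {p : ℕ} [hp : Fact p.Prime] {d : ℕ} {N : Matrix (Fin d) (Fin d) ℂ_[p]}
    (h : ∀ i j, ‖N i j‖ < 1) : ∃ r : ℝ, 0 ≤ r ∧ r < 1 ∧ EntLe N r := by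
  classical
  obtain ⟨r, hr, hr1⟩ : ∃ r ∈ Set.Ioo (0 : ℝ) 1, ∀ q ∈ (Finset.univ : Finset (Fin d × Fin d)),
      ‖N q.1 q.2‖ ≤ r := by
    induction (Finset.univ : Finset (Fin d × Fin d)) using Finset.induction_on with
    | empty => exact ⟨1 / 2, ⟨by norm_num, by norm_num⟩, fun q hq => absurd hq (Finset.notMem_empty _)⟩
    | insert a s ha ih =>
      obtain ⟨r, hr, hs⟩ := ih
      refine ⟨max r ‖N a.1 a.2‖, ⟨lt_max_of_lt_left hr.1, max_lt hr.2 (h _ _)⟩, ?_⟩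
      intro q hq
      rcases Finset.mem_insert.1 hq with h1 | h1
      · rw [h1]
        exact le_max_right _ _
      · exact (hs q h1).trans (le_max_left _ _)
  exact ⟨r, hr.1.le, hr.2, fun i j => hr1 (i, j) (Finset.mem_univ _)⟩

/-- **The replacement**, for integral matrices. -/
theorem pgof_replace_int {K L : Type} [Field K] [NumberField K] [Field L] [Algebra K Qbar]
    [Algebra L Qbar] {p : ℕ} [hp : Fact p.Prime] {d : ℕ}
    (ρ : (Qbar ≃ₐ[K] Qbar) →* Matrix (Fin d) (Fin d) ℂ_[p]) (hρ : Continuous ρ)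
    (hA1 : ∀ σ i j, ‖ρ σ i j‖ ≤ 1) {g : Qbar ≃ₐ[K] Qbar} (hg : FixesLevel L p d g) (m : ℕ) :
    ∃ g' : Qbar ≃ₐ[K] Qbar, FixesRoots p g' ∧ PowerFixes L p g' ∧
      cycEig (ρ g') m = cycEig (ρ g) m := by
  classical
  obtain ⟨κ, t, hκ, hpκ, hdt, ⟨τ, hfix, hτ⟩, hL, hg⟩ := hg
  have hp1 : ‖(p : ℂ_[p])‖ < 1 := Pool.Agent.RF.norm_p_lt p
  obtain ⟨n, hn0, hn⟩ := pgof_pow ρ hρ τ
  obtain ⟨a, M, hM, hnM⟩ := Nat.exists_eq_pow_mul_and_not_dvd hn0.ne' p hp.out.ne_one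
  have hT : ∀ i j, ‖(ρ τ ^ (M * p ^ t) - 1) i j‖ < 1 := by
    apply pgof_mat (a := a) hp.out hp1 hdt (ρ τ) (hA1 τ)
    rw [mul_comm, ← hnM]
    exact hn
  obtain ⟨r, hr0, hr1, hTr⟩ := pgof_bound hT
  have hU : IsClosed {u : Qbar ≃ₐ[K] Qbar | ∀ i j, ‖(ρ u - 1) i j‖ ≤ r} := by
    have h1 : {u : Qbar ≃ₐ[K] Qbar | ∀ i j, ‖(ρ u - 1) i j‖ ≤ r} =
        ⋂ (i : Fin d) (j : Fin d), {u | ‖(ρ u - 1) i j‖ ≤ r} := by
      ext u
      simp only [Set.mem_iInter, Set.mem_ofPred_eq]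
    rw [h1]
    refine isClosed_iInter fun i => isClosed_iInter fun j => ?_
    have h3 : Continuous fun M : Matrix (Fin d) (Fin d) ℂ_[p] => M i j :=
      (continuous_apply j).comp (continuous_apply i)
    exact isClosed_le (h3.comp (hρ.sub continuous_const)).norm continuous_const
  have hex : ∀ N, ∃ u ∈ {u : Qbar ≃ₐ[K] Qbar | ∀ i j, ‖(ρ u - 1) i j‖ ≤ r},
      ∀ z : Qbar, z ^ p ^ N = 1 → (g * u) z = z := by
    intro N
    obtain ⟨j, hj⟩ := of_gal hp.out hκ.ne' hpκ hM hfix hτ hg N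
    set v : Qbar ≃ₐ[K] Qbar := (τ ^ (M * p ^ t)) ^ j with hv
    have hvr : EntLe (ρ v - 1) r := by
      rw [hv, map_pow, map_pow]
      apply pgof_near_pow hr0 _ hTr
      rw [← map_pow]
      exact fun i j => hA1 _ i j
    refine ⟨v⁻¹, ?_, ?_⟩
    · have h1 : ρ v⁻¹ - 1 = ρ v⁻¹ * -(ρ v - 1) := by
        rw [mul_neg, mul_sub, mul_one, ← map_mul, inv_mul_cancel, map_one, neg_sub]
      have h2 := EntLe.mul (N := ρ v⁻¹) (N' := -(ρ v - 1)) zero_le_one hr0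
        (fun i j => hA1 _ i j) (EntLe.neg hvr)
      rw [one_mul, ← h1] at h2
      exact h2
    · intro z hz
      have h1 : (v⁻¹ z) ^ p ^ N = 1 := by rw [← map_pow, hz, map_one]
      change g (v⁻¹ z) = z
      rw [← hj _ h1]
      change (v * v⁻¹) z = z
      rw [mul_inv_cancel]
      rfl
  obtain ⟨u, hu, hgu⟩ := ofr_compact hU hex
  refine ⟨g * u, hgu, hL _ hgu, ?_⟩
  symm
  apply cycEig_congr _ _ (hA1 g)
  intro i j
  have h1 : ρ g - ρ (g * u) = ρ g * -(ρ u - 1) := by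
    rw [map_mul, mul_neg, mul_sub, mul_one, neg_sub]
  have h2 : EntLe (ρ g - ρ (g * u)) r := by
    rw [h1]
    have h3 := EntLe.mul (N := ρ g) (N' := -(ρ u - 1)) zero_le_one hr0 (hA1 g)
      (EntLe.neg (N := ρ u - 1) hu)
    rwa [one_mul] at h3
  have h4 := h2 i j
  rw [Matrix.sub_apply] at h4
  exact lt_of_le_of_lt h4 hr1

/-- The number of cyclotomic eigenvalues does not depend on the basis. -/
theorem pgof_conj {p : ℕ} [hp : Fact p.Prime] {d : ℕ} (P : (Matrix (Fin d) (Fin d) ℂ_[p])ˣ)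
    (N : Matrix (Fin d) (Fin d) ℂ_[p]) (m : ℕ) : cycEig (P.val⁻¹ * N * P.val) m = cycEig N m := by
  unfold cycEig
  rw [Matrix.charpoly_units_conj']

/-- **The replacement**: an element that fixes only the roots of unity of order `p ^ (κ + t)` can be
replaced by one that fixes all roots of unity of `p`-power order and has the same residues. -/
theorem pgof_replace {K L : Type} [Field K] [NumberField K] [Field L] [Algebra K Qbar]
    [Algebra L Qbar] {p : ℕ} [hp : Fact p.Prime] {d : ℕ}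
    (ρ : (Qbar ≃ₐ[K] Qbar) →* Matrix (Fin d) (Fin d) ℂ_[p]) (hρ : Continuous ρ)
    {g : Qbar ≃ₐ[K] Qbar} (hg : FixesLevel L p d g) (m : ℕ) :
    ∃ g' : Qbar ≃ₐ[K] Qbar, FixesRoots p g' ∧ PowerFixes L p g' ∧
      cycEig (ρ g') m = cycEig (ρ g) m := by
  classical
  obtain ⟨H, hfin, hH⟩ := pgof_sub ρ hρ
  obtain ⟨P, hP⟩ := pgl_conj ρ (fun q : (Qbar ≃ₐ[K] Qbar) ⧸ H => q.out) (by
    intro σ
    refine ⟨(σ : (Qbar ≃ₐ[K] Qbar) ⧸ H), (Quotient.out (σ : (Qbar ≃ₐ[K] Qbar) ⧸ H))⁻¹ * σ, ?_, ?_⟩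
    · rw [mul_inv_cancel_left]
    · intro i j
      have h1 : (Quotient.out (σ : (Qbar ≃ₐ[K] Qbar) ⧸ H))⁻¹ * σ ∈ H := by
        rw [← QuotientGroup.eq, QuotientGroup.out_eq']
      have h2 := hH _ h1 i j
      set u := (Quotient.out (σ : (Qbar ≃ₐ[K] Qbar) ⧸ H))⁻¹ * σ
      have h3 : ρ u i j = (ρ u - 1) i j + (1 : Matrix (Fin d) (Fin d) ℂ_[p]) i j := by
        rw [Matrix.sub_apply, sub_add_cancel]
      rw [h3]
      exact (IsUltrametricDist.norm_add_le_max _ _).trans (max_le h2.le (EntLe.one i j)))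
  let ρ' : (Qbar ≃ₐ[K] Qbar) →* Matrix (Fin d) (Fin d) ℂ_[p] :=
    { toFun := fun σ => P.val⁻¹ * ρ σ * P.val
      map_one' := by
        rw [map_one, mul_one, Matrix.nonsing_inv_mul _ ((Matrix.isUnit_iff_isUnit_det _).1 P.isUnit)]
      map_mul' := by
        intro σ τ
        rw [map_mul]
        have h1 : P.val * P.val⁻¹ = 1 :=
          Matrix.mul_nonsing_inv _ ((Matrix.isUnit_iff_isUnit_det _).1 P.isUnit)
        calc P.val⁻¹ * (ρ σ * ρ τ) * P.val = P.val⁻¹ * ρ σ * (P.val * P.val⁻¹) * ρ τ * P.val := by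
              rw [h1, mul_one, mul_assoc P.val⁻¹ (ρ σ) (ρ τ)]
          _ = P.val⁻¹ * ρ σ * P.val * (P.val⁻¹ * ρ τ * P.val) := by
              simp only [mul_assoc] }
  have hρ' : Continuous ρ' := (continuous_const.mul hρ).mul continuous_const
  obtain ⟨g', h1, h2, h3⟩ := pgof_replace_int (L := L) ρ' hρ' hP hg m
  refine ⟨g', h1, h2, ?_⟩
  have h4 : cycEig (P.val⁻¹ * ρ g' * P.val) m = cycEig (P.val⁻¹ * ρ g * P.val) m := h3
  rwa [pgof_conj, pgof_conj] at h4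

end Pool.Agent.PG
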